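import Mathlib
import Pool.Agent.H23.SubDiv

set_option autoImplicit false
set_option maxSynthPendingDepth 3

open FirstOrder FirstOrder.Language

namespace Pool.Agent.Results.MP_c671ed_lc.NotAx

/-- Unital reading: `R` embeds by a unital ring homomorphism in a product of division rings,
with every coordinate map surjective. -/
def IsSubdirect (R : Type) [Ring R] : Prop :=
  ∃ (I : Type) (D : I → Type) (_ : ∀ i, DivisionRing (D i)) (φ : R →+* (∀ i, D i)),
    Function.Injective φ ∧ ∀ i, Function.Surjective fun r => φ r i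

/-- Non-unital reading: rings and homomorphisms need not be unital. -/
def IsSubdirectNU (R : Type) [NonUnitalRing R] : Prop :=
  ∃ (I : Type) (D : I → Type) (_ : ∀ i, DivisionRing (D i)) (φ : R →ₙ+* (∀ i, D i)),
    Function.Injective φ ∧ ∀ i, Function.Surjective fun r => φ r i

/-- function symbols `+, ·, -, 0` -/
inductive NuFunc : ℕ → Type
  | add : NuFunc 2
  | mul : NuFunc 2
  | neg : NuFunc 1
  | zero : NuFunc 0

/-- the language `(+, -, ·, 0)` -/
def nuLang : Language := { Functions := NuFunc, Relations := fun _ => Empty }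

/-- a non-unital ring as a structure for `(+, -, ·, 0)` -/
@[reducible] def nuStr (R : Type) [NonUnitalRing R] : nuLang.Structure R where
  funMap := fun {n} f =>
    match n, f with
    | _, .add => fun x => x 0 + x 1
    | _, .mul => fun x => x 0 * x 1
    | _, .neg => fun x => -x 0
    | _, .zero => fun _ => 0
  RelMap := fun r => Empty.elim r

/-- a unital ring as a structure for Mathlib's language of rings `(+, ·, -, 0, 1)` -/
@[reducible] def uStr (R : Type) [Ring R] : Language.ring.Structure R :=
  (FirstOrder.Ring.compatibleRingOfRing R).toStructure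

open Pool.Agent.H23.SubDiv

noncomputable instance c0 : FirstOrder.Ring.CompatibleRing R0 :=
  FirstOrder.Ring.compatibleRingOfRing R0
noncomputable instance c1 : FirstOrder.Ring.CompatibleRing R1 :=
  FirstOrder.Ring.compatibleRingOfRing R1

noncomputable def embL : R0 ↪[Language.ring] R1 where
  toFun := emb
  inj' := emb_inj
  map_fun' := by
    intro n f x
    cases f
    · exact map_add emb (x 0) (x 1)
    · exact map_mul emb (x 0) (x 1)
    · exact map_neg emb (x 0)
    · exact map_zero emb
    · exact map_one emb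
  map_rel' := fun r => Empty.elim r

lemma elem : FirstOrder.Language.ElementarilyEquivalent Language.ring R0 R1 := by
  refine (embL.toElementaryEmbedding ?_).elementarilyEquivalent
  intro n φ x a h
  obtain ⟨g, hg, b, hb⟩ := homog x a
  refine ⟨b, ?_⟩
  let gL : R1 ≃[Language.ring] R1 := FirstOrder.Ring.languageEquivEquivRingEquiv.symm g
  have := (StrongHomClass.realize_boundedFormula gL φ).2 h
  have e2 : (gL ∘ (Fin.snoc (embL ∘ x) a : Fin (n + 1) → R1)) =
      (Fin.snoc (embL ∘ x) (embL b) : Fin (n + 1) → R1) := by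
    funext i
    refine Fin.lastCases ?_ (fun j => ?_) i
    · simp only [Fin.snoc_last, Function.comp]
      exact hb
    · simp only [Fin.snoc_castSucc, Function.comp]
      exact hg j
  rw [e2] at this
  have key : ∀ (v w : Empty → R1) (xs : Fin (n + 1) → R1), φ.Realize v xs → φ.Realize w xs :=
    fun v w xs hv => (funext fun e => Empty.elim e : v = w) ▸ hv
  exact key _ _ _ this

lemma R1_sub : IsSubdirect R1 := by
  choose φ hs hφ using sepR
  refine ⟨{f : R1 // f ≠ 0}, fun _ => D, fun _ => Ddiv,
    RingHom.pi (fun f : {f : R1 // f ≠ 0} => φ f.1 f.2), ?_, fun f => hs f.1 f.2⟩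
  rw [injective_iff_map_eq_zero]
  intro f hf
  by_contra h0
  exact hφ f h0 (congrFun hf ⟨f, h0⟩)

lemma toNU {R : Type} [Ring R] (h : IsSubdirect R) : IsSubdirectNU R := by
  obtain ⟨I, D, inst, φ, h1, h2⟩ := h
  exact ⟨I, D, inst, φ.toNonUnitalRingHom, h1, h2⟩

lemma R0_not : ¬ IsSubdirectNU R0 := by
  rintro ⟨I, E, inst, φ, h1, h2⟩
  have : φ ⟨0, 0, 0, 1⟩ = φ 0 := by
    funext i
    let ψ : R0 →+* E i :=
      { toFun := fun r => φ r i
        map_one' := by
          obtain ⟨r, hr⟩ := h2 i 1
          have h3 : φ 1 i * φ r i = φ r i := by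
            rw [← Pi.mul_apply, ← map_mul, one_mul]
          simp only at hr
          rwa [hr, mul_one] at h3
        map_mul' := fun x y => by simp
        map_zero' := by simp
        map_add' := fun x y => by simp }
    have := kill ψ (h2 i)
    rw [map_zero]
    exact this
  have h3 := congrArg QuaternionAlgebra.imK (h1 this)
  simp at h3

def incl : nuLang →ᴸ Language.ring where
  onFunction := fun {n} f =>
    match n, f with
    | _, .add => FirstOrder.Ring.addFunc
    | _, .mul => FirstOrder.Ring.mulFunc
    | _, .neg => FirstOrder.Ring.negFunc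
    | _, .zero => FirstOrder.Ring.zeroFunc
  onRelation := fun _ r => Empty.elim r

lemma expn (R : Type) [Ring R] : @LHom.IsExpansionOn _ _ incl R (nuStr R) (uStr R) :=
  @LHom.IsExpansionOn.mk _ _ incl R (nuStr R) (uStr R)
    (by intro n f x; cases f <;> rfl) (fun r => Empty.elim r)

theorem result :
    (¬ ∃ T : Language.ring.Theory, ∀ (R : Type) [Ring R],
        (@Theory.Model _ R (uStr R) T ↔ IsSubdirect R)) ∧
    (¬ ∃ T : nuLang.Theory, ∀ (R : Type) [NonUnitalRing R],
        (@Theory.Model _ R (nuStr R) T ↔ IsSubdirectNU R)) := by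
  constructor
  · rintro ⟨T, hT⟩
    have h1 : R1 ⊨ T := (hT R1).2 R1_sub
    have h0 : R0 ⊨ T := elem.theory_model_iff.2 h1
    exact R0_not (toNU ((hT R0).1 h0))
  · rintro ⟨T, hT⟩
    have h1 := (hT R1).2 (toNU R1_sub)
    have h1' : R1 ⊨ incl.onTheory T :=
      (@LHom.onTheory_model _ _ R1 (nuStr R1) (uStr R1) incl (expn R1) T).2 h1
    have h0 : R0 ⊨ incl.onTheory T := elem.theory_model_iff.2 h1'
    exact R0_not ((hT R0).1
      ((@LHom.onTheory_model _ _ R0 (nuStr R0) (uStr R0) incl (expn R0) T).1 h0))

end Pool.Agent.Results.MP_c671ed_lc.NotAx
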